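import Pool.Agent.K3h5.FF.Stm

set_option autoImplicit false

namespace Pool.Agent.K3h13.FF

open Pool.Agent.K3h5.FF Finset

/-- the values of `succAbove` -/
theorem sa_val {n : ℕ} (a : Fin (n + 1)) (b : Fin n) :
    (a.succAbove b).val = if b.val < a.val then b.val else b.val + 1 := by
  by_cases h : b.val < a.val
  · rw [if_pos h, Fin.succAbove_of_castSucc_lt _ _ (by rw [Fin.lt_def]; simpa using h)]
    simp
  · rw [if_neg h, Fin.succAbove_of_le_castSucc _ _ (by rw [Fin.le_def]; simpa using h)]
    simp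

/-- the word of the new permutation -/
def insF {n : ℕ} (a : Fin (n + 1)) (σ : Equiv.Perm (Fin n)) : Fin (n + 1) → Fin (n + 1) :=
  Fin.cons a (fun i => a.succAbove (σ i))

theorem insF_inj {n : ℕ} (a : Fin (n + 1)) (σ : Equiv.Perm (Fin n)) :
    Function.Injective (insF a σ) := by
  unfold insF
  rw [Fin.cons_injective_iff]
  refine ⟨?_, (Fin.succAbove_right_injective).comp σ.injective⟩
  rintro ⟨i, hi⟩
  exact Fin.succAbove_ne a (σ i) hi

/-- insertion of the first letter -/
noncomputable def insP {n : ℕ} (a : Fin (n + 1)) (σ : Equiv.Perm (Fin n)) :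
    Equiv.Perm (Fin (n + 1)) :=
  Equiv.ofBijective (insF a σ) (Finite.injective_iff_bijective.mp (insF_inj a σ))

theorem insP_zero {n : ℕ} (a : Fin (n + 1)) (σ : Equiv.Perm (Fin n)) : insP a σ 0 = a := rfl

theorem insP_succ {n : ℕ} (a : Fin (n + 1)) (σ : Equiv.Perm (Fin n)) (i : Fin n) :
    insP a σ i.succ = a.succAbove (σ i) := rfl

theorem insP_bij (n : ℕ) : Function.Bijective
    (fun x : Fin (n + 1) × Equiv.Perm (Fin n) => insP x.1 x.2) := by
  rw [Fintype.bijective_iff_injective_and_card]
  constructor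
  · rintro ⟨a, σ⟩ ⟨b, τ⟩ h
    simp only at h
    have h0 : a = b := by
      have := congrArg (fun π : Equiv.Perm (Fin (n + 1)) => π 0) h
      simpa [insP_zero] using this
    subst h0
    have h1 : σ = τ := by
      ext i
      have h2 : insP a σ i.succ = insP a τ i.succ := by rw [h]
      rw [insP_succ, insP_succ] at h2
      rw [Fin.succAbove_right_injective h2]
    rw [h1]
  · rw [Fintype.card_prod, Fintype.card_perm, Fintype.card_perm, Fintype.card_fin,
      Fintype.card_fin, Nat.factorial_succ]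

/-- inversions as a double sum -/
theorem inv_eq {n : ℕ} (π : Equiv.Perm (Fin n)) :
    inv π = ∑ i : Fin n, ∑ j : Fin n, if i < j ∧ π j < π i then 1 else 0 := by
  unfold inv
  rw [Finset.card_filter, ← Finset.univ_product_univ, Finset.sum_product]

theorem Fc_eq {n : ℕ} (t m : ℕ) (π : Equiv.Perm (Fin n)) :
    Fc t m π = ∑ i : Fin n, if i.val < t ∧ (π i).val < m then 1 else 0 := by
  unfold Fc
  rw [Finset.card_filter]

theorem cnt_lt (n a : ℕ) (h : a ≤ n) : (∑ j : Fin n, if j.val < a then 1 else 0) = a := by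
  rw [Fin.sum_univ_eq_sum_range (fun k => if k < a then 1 else 0) n, Finset.sum_boole]
  have : (Finset.range n).filter (fun k => k < a) = Finset.range a := by
    ext k
    simp only [Finset.mem_filter, Finset.mem_range]
    omega
  rw [this]
  simp

theorem inv_insP {n : ℕ} (a : Fin (n + 1)) (σ : Equiv.Perm (Fin n)) :
    inv (insP a σ) = a.val + inv σ := by
  rw [inv_eq, Fin.sum_univ_succ]
  congr 1
  · rw [Fin.sum_univ_succ]
    have h0 : (if (0 : Fin (n + 1)) < 0 ∧ insP a σ 0 < insP a σ 0 then 1 else 0) = 0 := by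
      rw [if_neg]
      exact fun h => lt_irrefl _ h.1
    rw [h0, zero_add]
    have h1 : ∀ j : Fin n, (if (0 : Fin (n + 1)) < j.succ ∧ insP a σ j.succ < insP a σ 0 then 1 else 0) =
        (fun b : Fin n => if b.val < a.val then 1 else 0) (σ j) := by
      intro j
      simp only
      rw [insP_succ, insP_zero]
      refine if_congr ?_ rfl rfl
      rw [Fin.lt_def (a := a.succAbove (σ j)), sa_val]
      constructor
      · rintro ⟨-, h⟩
        by_contra hc
        rw [if_neg hc] at h
        omega
      · intro h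
        refine ⟨Fin.succ_pos j, ?_⟩
        rw [if_pos h]
        exact h
    rw [Finset.sum_congr rfl (fun j _ => h1 j),
      Equiv.sum_comp σ (fun b : Fin n => if b.val < a.val then 1 else 0)]
    exact cnt_lt n a.val (by omega)
  · rw [inv_eq]
    refine Finset.sum_congr rfl (fun i _ => ?_)
    rw [Fin.sum_univ_succ]
    have h0 : (if i.succ < (0 : Fin (n + 1)) ∧ insP a σ 0 < insP a σ i.succ then 1 else 0) = 0 := by
      rw [if_neg]
      exact fun h => absurd h.1 (Fin.not_lt_zero _)
    rw [h0, zero_add]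
    refine Finset.sum_congr rfl (fun j _ => ?_)
    rw [insP_succ, insP_succ]
    refine if_congr ?_ rfl rfl
    rw [Fin.succ_lt_succ_iff, Fin.succAbove_lt_succAbove_iff]

theorem Fc_insP {n : ℕ} (a : Fin (n + 1)) (σ : Equiv.Perm (Fin n)) (t m : ℕ) :
    Fc (t + 1) m (insP a σ) = if a.val < m then 1 + Fc t (m - 1) σ else Fc t m σ := by
  rw [Fc_eq, Fin.sum_univ_succ]
  simp only [insP_zero, insP_succ]
  by_cases h : a.val < m
  · rw [if_pos h, if_pos ⟨by simp, h⟩, Fc_eq]
    congr 1
    refine Finset.sum_congr rfl (fun i _ => if_congr ?_ rfl rfl)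
    rw [sa_val, Fin.val_succ]
    split_ifs with h1
    · omega
    · omega
  · rw [if_neg h, if_neg (fun h' => h h'.2), zero_add, Fc_eq]
    refine Finset.sum_congr rfl (fun i _ => if_congr ?_ rfl rfl)
    rw [sa_val, Fin.val_succ]
    split_ifs with h1
    · omega
    · omega

theorem t_DEC : S_DEC := by
  intro n
  refine ⟨Equiv.ofBijective _ (insP_bij n), fun a σ => ⟨rfl, fun i => rfl, ?_, fun t m => ?_⟩⟩
  · exact inv_insP a σ
  · exact Fc_insP a σ t m

end Pool.Agent.K3h13.FF
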